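import Pool.Agent.Y360.RR.Stm

/-! Y360-RR GRAM and DET: the q-binomial algebra. -/

set_option autoImplicit false

open Finset

namespace Pool.Agent.Y563.RR

open Pool.Agent.Y360.RR

/-- the q-binomial coefficient `[k + j; j]` at `x` -/
noncomputable def h (x : ℂ) : ℕ → ℕ → ℂ
  | 0, _ => 1
  | _ + 1, 0 => 1
  | k + 1, j + 1 => h x k (j + 1) + x ^ (k + 1) * h x (k + 1) j

theorem h_zero_left (x : ℂ) (j : ℕ) : h x 0 j = 1 := by rw [h]

theorem h_zero_right (x : ℂ) (k : ℕ) : h x k 0 = 1 := by
  cases k <;> rw [h]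

theorem h_succ (x : ℂ) (k j : ℕ) :
    h x (k + 1) (j + 1) = h x k (j + 1) + x ^ (k + 1) * h x (k + 1) j := by rw [h]

/-- the quotient rule -/
theorem h_quot (x : ℂ) (k j : ℕ) :
    (1 - x ^ (j + 1)) * h x k (j + 1) = (1 - x ^ (k + 1)) * h x (k + 1) j := by
  induction k generalizing j with
  | zero =>
    induction j with
    | zero => rw [h_zero_left, h_zero_right]
    | succ j ih =>
      rw [h_zero_left] at ih
      rw [h_zero_left, h_succ, h_zero_left]
      linear_combination x * ih
  | succ k ih =>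
    induction j with
    | zero =>
      have h1 := ih 0
      rw [h_zero_right] at h1
      rw [h_succ, h_zero_right, h_zero_right]
      linear_combination h1
    | succ j ihj =>
      have h1 := ih (j + 1)
      rw [h_succ x k (j + 1), h_succ x (k + 1) j]
      linear_combination h1 + x ^ (k + 2) * ihj

/-- the second recursion of `h` -/
theorem h_succ' (x : ℂ) (k j : ℕ) :
    h x (k + 1) (j + 1) = h x (k + 1) j + x ^ (j + 1) * h x k (j + 1) := by
  rw [h_succ]
  linear_combination h_quot x k j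

/-- symmetry -/
theorem h_symm (x : ℂ) (k j : ℕ) : h x k j = h x j k := by
  induction k generalizing j with
  | zero => rw [h_zero_left, h_zero_right]
  | succ k ih =>
    induction j with
    | zero => rw [h_zero_left, h_zero_right]
    | succ j ihj =>
      rw [h_succ, h_succ' x j k, ih (j + 1), ihj]

theorem c_zero (x : ℂ) (N : ℕ) : c x N 0 = 1 := by
  match N with
  | 0 => rw [c]
  | 1 => rw [c]
  | N + 2 => rw [c]

theorem c_succ (x : ℂ) (N j : ℕ) :
    c x (N + 2) (j + 1) = c x (N + 1) (j + 1) + x ^ (N + 1) * c x N j := by rw [c]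

theorem c_big (x : ℂ) : ∀ N j : ℕ, N < 2 * j → c x N j = 0 := by
  intro N
  induction N using Nat.strong_induction_on with
  | _ N ih =>
    intro j hj
    match N, j with
    | 0, 0 => omega
    | 0, j + 1 => rw [c]
    | 1, 0 => omega
    | 1, j + 1 => rw [c]
    | N + 2, 0 => omega
    | N + 2, j + 1 =>
      rw [c_succ, ih (N + 1) (by omega) (j + 1) (by omega), ih N (by omega) j (by omega)]
      ring

/-- the coefficients in terms of q-binomials -/
theorem c_eq (x : ℂ) : ∀ N j : ℕ, 2 * j ≤ N → c x N j = x ^ (j ^ 2) * h x (N - 2 * j) j := by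
  intro N
  induction N using Nat.strong_induction_on with
  | _ N ih =>
    intro j hj
    match N, j with
    | N, 0 =>
      rw [c_zero, h_zero_right]
      simp
    | 0, j + 1 => omega
    | 1, j + 1 => omega
    | N + 2, j + 1 =>
      obtain ⟨k, hk⟩ : ∃ k, N = 2 * j + k := ⟨N - 2 * j, by omega⟩
      subst hk
      rw [c_succ, ih (2 * j + k) (by omega) j (by omega)]
      have e1 : 2 * j + k + 2 - 2 * (j + 1) = k := by omega
      have e2 : 2 * j + k - 2 * j = k := by omega
      rw [e1, e2]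
      match k with
      | 0 =>
        rw [c_big x _ _ (by omega), h_zero_left, h_zero_left]
        ring
      | k + 1 =>
        rw [ih (2 * j + (k + 1) + 1) (by omega) (j + 1) (by omega)]
        have e3 : 2 * j + (k + 1) + 1 - 2 * (j + 1) = k := by omega
        rw [e3, h_succ]
        ring

theorem c_succ' (x : ℂ) (N j : ℕ) :
    c x (N + 2) (j + 1) = x ^ (j + 1) * c x (N + 1) (j + 1) + x ^ (2 * j + 1) * c x N j := by
  rcases Nat.lt_or_ge N (2 * j) with hN | hN
  · rw [c_big x (N + 2) (j + 1) (by omega), c_big x (N + 1) (j + 1) (by omega),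
      c_big x N j (by omega)]
    ring
  · obtain ⟨k, hk⟩ : ∃ k, N = 2 * j + k := ⟨N - 2 * j, by omega⟩
    subst hk
    rw [c_eq x (2 * j + k + 2) (j + 1) (by omega), c_eq x (2 * j + k) j (by omega)]
    have e1 : 2 * j + k + 2 - 2 * (j + 1) = k := by omega
    have e2 : 2 * j + k - 2 * j = k := by omega
    rw [e1, e2]
    match k with
    | 0 =>
      rw [c_big x _ _ (by omega), h_zero_left, h_zero_left]
      ring
    | k + 1 =>
      rw [c_eq x (2 * j + (k + 1) + 1) (j + 1) (by omega)]
      have e3 : 2 * j + (k + 1) + 1 - 2 * (j + 1) = k := by omega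
      rw [e3, h_succ']
      ring

theorem Q_eq (x : ℂ) (N : ℕ) (z : ℂ) {K : ℕ} (hK : N / 2 + 1 ≤ K) :
    Q x N z = ∑ j ∈ range K, c x N j * z ^ j := by
  unfold Q
  apply Finset.sum_subset (Finset.range_mono hK)
  intro j _ hj
  rw [Finset.mem_range] at hj
  rw [c_big x N j (by omega), zero_mul]

/-- the first recursion -/
theorem Q_succ (x : ℂ) (N : ℕ) (z : ℂ) :
    Q x (N + 2) z = Q x (N + 1) z + z * x ^ (N + 1) * Q x N z := by
  rw [Q_eq x (N + 2) z (K := N + 3) (by omega), Q_eq x (N + 1) z (K := N + 3) (by omega),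
    Q_eq x N z (K := N + 2) (by omega), Finset.sum_range_succ', Finset.sum_range_succ' _ (N + 2),
    c_zero, c_zero, Finset.mul_sum]
  have h1 : ∑ k ∈ range (N + 2), c x (N + 2) (k + 1) * z ^ (k + 1) =
      ∑ k ∈ range (N + 2), c x (N + 1) (k + 1) * z ^ (k + 1) +
      ∑ k ∈ range (N + 2), z * x ^ (N + 1) * (c x N k * z ^ k) := by
    rw [← Finset.sum_add_distrib]
    apply Finset.sum_congr rfl
    intro k _
    rw [c_succ]
    ring
  rw [h1]
  ring

/-- the second recursion -/
theorem Q_succ' (x : ℂ) (N : ℕ) (z : ℂ) :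
    Q x (N + 2) z = Q x (N + 1) (z * x) + z * x * Q x N (z * x ^ 2) := by
  rw [Q_eq x (N + 2) z (K := N + 3) (by omega), Q_eq x (N + 1) (z * x) (K := N + 3) (by omega),
    Q_eq x N (z * x ^ 2) (K := N + 2) (by omega), Finset.sum_range_succ',
    Finset.sum_range_succ' _ (N + 2), c_zero, c_zero, Finset.mul_sum]
  have h1 : ∑ k ∈ range (N + 2), c x (N + 2) (k + 1) * z ^ (k + 1) =
      ∑ k ∈ range (N + 2), c x (N + 1) (k + 1) * (z * x) ^ (k + 1) +
      ∑ k ∈ range (N + 2), z * x * (c x N k * (z * x ^ 2) ^ k) := by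
    rw [← Finset.sum_add_distrib]
    apply Finset.sum_congr rfl
    intro k _
    rw [c_succ']
    ring
  rw [h1]
  ring

theorem Q_zero (x z : ℂ) : Q x 0 z = 1 := by
  unfold Q
  simp [c_zero]

theorem Q_one (x z : ℂ) : Q x 1 z = 1 := by
  unfold Q
  simp [c_zero]

theorem gram {x : ℂ} (hx : ‖x‖ = 1) (m n : ℕ) :
    a x m * (starRingEnd ℂ) (a x n) + b x m * (starRingEnd ℂ) (b x n) = Q x (m + n) (x⁻¹ ^ n) := by
  have hx0 : x ≠ 0 := by
    intro h0
    rw [h0, norm_zero] at hx
    exact zero_ne_one hx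
  have hconj : (starRingEnd ℂ) x = x⁻¹ := by
    rw [Complex.inv_def, Complex.normSq_eq_norm_sq, hx]
    simp
  have ha : ∀ n, a x (n + 2) = a x (n + 1) + x ^ (n + 1) * a x n := fun n => by rw [a]
  have hb : ∀ n, b x (n + 2) = b x (n + 1) + x ^ (n + 1) * b x n := fun n => by rw [b]
  have ha0 : a x 0 = 1 := by rw [a]
  have ha1 : a x 1 = 1 := by rw [a]
  have hb0 : b x 0 = 0 := by rw [b]
  have hb1 : b x 1 = 1 := by rw [b]
  -- the recursion in `m`
  have hm : ∀ n m : ℕ, Q x (m + 2 + n) (x⁻¹ ^ n) = Q x (m + 1 + n) (x⁻¹ ^ n) +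
      x ^ (m + 1) * Q x (m + n) (x⁻¹ ^ n) := by
    intro n m
    have h1 := Q_succ x (m + n) (x⁻¹ ^ n)
    have e1 : m + n + 2 = m + 2 + n := by ring
    have e2 : m + n + 1 = m + 1 + n := by ring
    rw [e1] at h1
    rw [h1, e2]
    have e3 : x⁻¹ ^ n * x ^ (m + 1 + n) = x ^ (m + 1) := by
      rw [pow_add, inv_pow]
      field_simp
    rw [e3]
  have hn : ∀ m n : ℕ, Q x (m + (n + 2)) (x⁻¹ ^ (n + 2)) = Q x (m + (n + 1)) (x⁻¹ ^ (n + 1)) +
      x⁻¹ ^ (n + 1) * Q x (m + n) (x⁻¹ ^ n) := by
    intro m n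
    have h1 := Q_succ' x (m + n) (x⁻¹ ^ (n + 2))
    have e3 : x⁻¹ ^ (n + 2) * x = x⁻¹ ^ (n + 1) := by
      rw [pow_succ]
      field_simp
    have e4 : x⁻¹ ^ (n + 2) * x ^ 2 = x⁻¹ ^ n := by
      rw [pow_add]
      field_simp
    rw [e3, e4] at h1
    exact h1
  have hz : ∀ m : ℕ, a x m * (starRingEnd ℂ) (a x 0) + b x m * (starRingEnd ℂ) (b x 0) =
      Q x (m + 0) (x⁻¹ ^ 0) := by
    intro m
    induction m using Nat.strong_induction_on with
    | _ m ih =>
      match m with
      | 0 => rw [Q_zero, ha0, hb0]; simp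
      | 1 => rw [Q_one, ha0, hb0, ha1, hb1]; simp
      | m + 2 =>
        rw [hm 0 m, ← ih m (by omega), ← ih (m + 1) (by omega), ha, hb]
        ring
  have ho : ∀ m : ℕ, a x m * (starRingEnd ℂ) (a x 1) + b x m * (starRingEnd ℂ) (b x 1) =
      Q x (m + 1) (x⁻¹ ^ 1) := by
    intro m
    induction m using Nat.strong_induction_on with
    | _ m ih =>
      match m with
      | 0 => rw [Q_one, ha0, hb0, ha1, hb1]; simp
      | 1 =>
        rw [ha1, hb1, Q_succ x 0, Q_zero, Q_one]
        simp only [map_one, mul_one, zero_add, pow_one]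
        rw [inv_mul_cancel₀ hx0]
      | m + 2 =>
        rw [hm 1 m, ← ih m (by omega), ← ih (m + 1) (by omega), ha, hb]
        ring
  induction n using Nat.strong_induction_on with
  | _ n ih =>
    match n with
    | 0 => exact hz m
    | 1 => exact ho m
    | n + 2 =>
      rw [hn m n, ← ih n (by omega), ← ih (n + 1) (by omega), ha, hb, map_add, map_add, map_mul,
        map_mul, map_pow, hconj]
      ring

theorem t_GRAM : S_GRAM := fun _ hx _ m n => gram hx m n

theorem t_DET : S_DET := by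
  intro x hx m r
  have ha : ∀ n, a x (n + 2) = a x (n + 1) + x ^ (n + 1) * a x n := fun n => by rw [a]
  have hb : ∀ n, b x (n + 2) = b x (n + 1) + x ^ (n + 1) * b x n := fun n => by rw [b]
  have ha0 : a x 0 = 1 := by rw [a]
  have ha1 : a x 1 = 1 := by rw [a]
  have hb0 : b x 0 = 0 := by rw [b]
  have hb1 : b x 1 = 1 := by rw [b]
  have h0 : ∀ m : ℕ, ‖Del x m (m + 1)‖ = 1 := by
    intro m
    induction m with
    | zero =>
      unfold Del
      rw [ha0, ha1, hb0, hb1]
      simp
    | succ m ih =>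
      have h1 : Del x (m + 1) (m + 1 + 1) = -x ^ (m + 1) * Del x m (m + 1) := by
        unfold Del
        have e1 : m + 1 + 1 = m + 2 := rfl
        rw [e1, ha, hb]
        ring
      rw [h1, norm_mul, ih, norm_neg, norm_pow, hx, one_pow, one_mul]
  have h1 : ∀ r : ℕ, Del x m (m + 1 + r) = Del x m (m + 1) * Q x r (x ^ (m + 1)) := by
    intro r
    induction r using Nat.strong_induction_on with
    | _ r ih =>
      match r with
      | 0 => rw [Q_zero, mul_one, add_zero]
      | 1 =>
        rw [Q_one, mul_one]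
        unfold Del
        have e1 : m + 1 + 1 = m + 2 := rfl
        rw [e1, ha, hb]
        ring
      | r + 2 =>
        have h2 := ih r (by omega)
        have h3 := ih (r + 1) (by omega)
        have e1 : m + 1 + (r + 2) = (m + 1 + r) + 2 := rfl
        have e2 : m + 1 + (r + 1) = (m + 1 + r) + 1 := rfl
        rw [e2] at h3
        have h4 : Del x m (m + 1 + (r + 2)) =
            Del x m (m + 1 + r + 1) + x ^ (m + 1 + r + 1) * Del x m (m + 1 + r) := by
          unfold Del
          rw [e1, ha, hb]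
          ring
        rw [h4, h3, h2, Q_succ]
        ring
  rw [h1 r, norm_mul, h0 m, one_mul]

end Pool.Agent.Y563.RR
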