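import Pool.Agent.Y64.RR.Stm

/-! RR-G: the products `gg`, `hh`. -/

set_option autoImplicit false

open Finset

namespace Pool.Agent.Y563.RR

open Pool.Agent.Y64.RR

variable {m : ℕ} {c : ℤ}

theorem JJ_spec (m : ℕ) (c : ℤ) (i : ℕ) : ∃ k : ℤ, (i : ℤ) * c = m * k + JJ c m i :=
  ⟨Int.bdiv (i * c) m, (Int.bdiv_add_bmod _ _).symm⟩

theorem JJ_abs (hm : 1 ≤ m) (c : ℤ) (i : ℕ) : 2 * |JJ c m i| ≤ m := by
  have h1 := Int.le_bmod (x := (i : ℤ) * c) (m := m) (by omega)
  have h2 := Int.bmod_le (x := (i : ℤ) * c) (m := m) (by omega)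
  unfold JJ
  rcases abs_cases (Int.bmod ((i : ℤ) * c) m) with h | h <;> omega

theorem JJ_inj (hm : 1 ≤ m) (cop : IsCoprime c (m : ℤ)) {i j : ℕ} (hi : i < m) (hj : j < m)
    (h : JJ c m i = JJ c m j) : i = j := by
  obtain ⟨k, hk⟩ := JJ_spec m c i
  obtain ⟨k', hk'⟩ := JJ_spec m c j
  have h1 : (m : ℤ) ∣ c * ((i : ℤ) - j) := ⟨k - k', by
    rw [h] at hk
    linear_combination hk - hk'⟩
  have h2 : (m : ℤ) ∣ (i : ℤ) - j := cop.symm.dvd_of_dvd_mul_left h1
  have h3 : (i : ℤ) - j = 0 := by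
    apply Int.eq_zero_of_abs_lt_dvd h2
    rw [abs_lt]
    constructor <;> omega
  omega

theorem JJ_ne (hm : 1 ≤ m) (cop : IsCoprime c (m : ℤ)) {i : ℕ} (hi : 1 ≤ i) (hi' : i < m) :
    JJ c m i ≠ 0 := by
  intro h
  have h0 : JJ c m 0 = 0 := by
    unfold JJ
    simp
  have := JJ_inj hm cop hi' (by omega : 0 < m) (h.trans h0.symm)
  omega

/-- sums over the values of `|J|` -/
theorem sum_le (hm : 1 ≤ m) (cop : IsCoprime c (m : ℤ)) (G : ℕ → ℝ) (hG : ∀ n, 0 ≤ G n)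
    (S T : Finset ℕ) (hS : ∀ i ∈ S, i < m) (hT : ∀ i ∈ S, (JJ c m i).natAbs ∈ T) :
    ∑ i ∈ S, G (JJ c m i).natAbs ≤ 2 * ∑ n ∈ T, G n := by
  rw [← Finset.sum_fiberwise_of_maps_to hT, Finset.mul_sum]
  apply Finset.sum_le_sum
  intro n _
  have h1 : ∑ i ∈ S with (JJ c m i).natAbs = n, G (JJ c m i).natAbs =
      ((S.filter fun i => (JJ c m i).natAbs = n).card : ℝ) * G n := by
    rw [← nsmul_eq_mul, ← Finset.sum_const]
    apply Finset.sum_congr rfl
    intro i hi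
    rw [(Finset.mem_filter.1 hi).2]
  rw [h1]
  apply mul_le_mul_of_nonneg_right _ (hG n)
  have h2 : (S.filter fun i => (JJ c m i).natAbs = n) ⊆
      (S.filter fun i => JJ c m i = n) ∪ (S.filter fun i => JJ c m i = -(n : ℤ)) := by
    intro i hi
    rw [Finset.mem_filter] at hi
    rw [Finset.mem_union, Finset.mem_filter, Finset.mem_filter]
    rcases Int.natAbs_eq (JJ c m i) with h | h
    · left
      exact ⟨hi.1, by rw [h, hi.2]⟩
    · right
      exact ⟨hi.1, by rw [h, hi.2]⟩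
  have h3 : ∀ a : ℤ, (S.filter fun i => JJ c m i = a).card ≤ 1 := by
    intro a
    rw [Finset.card_le_one]
    intro i hi j hj
    rw [Finset.mem_filter] at hi hj
    exact JJ_inj hm cop (hS i hi.1) (hS j hj.1) (hi.2.trans hj.2.symm)
  have h4 := (Finset.card_le_card h2).trans (Finset.card_union_le _ _)
  have h5 := h3 n
  have h6 := h3 (-(n : ℤ))
  exact_mod_cast h4.trans (by omega)

theorem sin_lower {y : ℝ} (hy : |y| ≤ 3 / 4) : 2 / 3 * |y| ≤ |Real.sin (Real.pi * y)| := by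
  have hpi := Real.pi_pos
  have key : ∀ x : ℝ, 0 ≤ x → x ≤ 3 / 4 → 2 / 3 * x ≤ Real.sin (Real.pi * x) := by
    intro x hx0 hx
    rcases le_total x (1 / 2) with h | h
    · have h1 := Real.mul_le_sin (x := Real.pi * x) (by positivity) (by nlinarith)
      have h2 : 2 / Real.pi * (Real.pi * x) = 2 * x := by field_simp
      rw [h2] at h1
      linarith
    · have h1 := Real.mul_le_sin (x := Real.pi * (1 - x)) (by
        apply mul_nonneg hpi.le
        linarith) (by nlinarith)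
      have h2 : 2 / Real.pi * (Real.pi * (1 - x)) = 2 * (1 - x) := by field_simp
      have h3 : Real.sin (Real.pi * (1 - x)) = Real.sin (Real.pi * x) := by
        rw [← Real.sin_pi_sub]
        congr 1
        ring
      rw [h2, h3] at h1
      linarith
  rcases le_total 0 y with h | h
  · rw [abs_of_nonneg h] at hy ⊢
    exact (key y h hy).trans (le_abs_self _)
  · rw [abs_of_nonpos h] at hy ⊢
    have h1 := key (-y) (by linarith) hy
    have h2 : Real.sin (Real.pi * -y) = -Real.sin (Real.pi * y) := by rw [mul_neg, Real.sin_neg]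
    rw [h2] at h1
    exact h1.trans (neg_le_abs _)

/-- the factor in terms of the cotangent -/
theorem wf_eq {t δ : ℝ} {m : ℕ} (hm : 1 ≤ m) {c : ℤ} (ht : m * t = c + δ) (i : ℕ)
    (h0 : Real.sin (Real.pi * ((JJ c m i + i * δ) / m)) ≠ 0) :
    wf t δ i = Real.cos (Real.pi * δ) - Real.sin (Real.pi * δ) *
      (Real.cos (Real.pi * ((JJ c m i + i * δ) / m)) /
        Real.sin (Real.pi * ((JJ c m i + i * δ) / m))) := by
  obtain ⟨k, hk⟩ := JJ_spec m c i
  have hm' : (m : ℝ) ≠ 0 := by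
    have : (0 : ℝ) < m := by exact_mod_cast hm
    exact this.ne'
  obtain ⟨y, hy⟩ : ∃ y : ℝ, y = (JJ c m i + i * δ) / m := ⟨_, rfl⟩
  rw [← hy] at h0 ⊢
  have hk' : (i : ℝ) * c = m * k + JJ c m i := by exact_mod_cast hk
  have e1 : (i : ℝ) * t = k + y := by
    rw [hy]
    field_simp
    linear_combination (i : ℝ) * ht + hk'
  have e2 : Real.sin (Real.pi * (i * t)) = (-1) ^ k * Real.sin (Real.pi * y) := by
    rw [← Real.sin_add_int_mul_pi]
    congr 1
    rw [e1]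
    ring
  have e3 : Real.cos (Real.pi * (i * t)) = (-1) ^ k * Real.cos (Real.pi * y) := by
    rw [← Real.cos_add_int_mul_pi]
    congr 1
    rw [e1]
    ring
  have e4 : ((-1 : ℝ)) ^ k ≠ 0 := zpow_ne_zero _ (by norm_num)
  unfold wf
  have e5 : Real.pi * (i * t - δ) = Real.pi * (i * t) - Real.pi * δ := by ring
  rw [e5, Real.sin_sub, e2, e3]
  field_simp

/-- basic bounds -/
structure Bnd (t δ s : ℝ) (c : ℤ) (m i : ℕ) : Prop where
  pos : 1 ≤ |(JJ c m i : ℝ)|
  w1 : |wf t δ i - 1| ≤ 11 * (s / |(JJ c m i : ℝ)|)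
  w2 : |wf t δ i - 1 + Real.sin (Real.pi * δ) * (Real.cos (Real.pi * (JJ c m i / m)) /
    Real.sin (Real.pi * (JJ c m i / m)))| ≤ 24 * (s / |(JJ c m i : ℝ)| ^ 2)

theorem bnd {t δ s : ℝ} {m : ℕ} (hm : 1 ≤ m) {c : ℤ} (cop : IsCoprime c (m : ℤ))
    (ht : m * t = c + δ) (hs : s = m * |δ|) (hs2 : s ≤ 1 / 2) {i : ℕ} (hi : 1 ≤ i) (hi' : i < m) :
    Bnd t δ s c m i := by
  have hpi := Real.pi_pos
  have hpi3 := Real.pi_lt_d2
  have hm0 : (2 : ℝ) ≤ m := by exact_mod_cast (by omega : 2 ≤ m)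
  have hs0 : 0 ≤ s := by rw [hs]; positivity
  obtain ⟨j, hj⟩ : ∃ j : ℝ, j = |(JJ c m i : ℝ)| := ⟨_, rfl⟩
  have hj1 : 1 ≤ j := by
    rw [hj]
    have h1 : 1 ≤ |JJ c m i| := Int.one_le_abs (JJ_ne hm cop hi hi')
    exact_mod_cast h1
  have hj2 : 2 * j ≤ m := by
    rw [hj]
    have h1 := JJ_abs hm c i
    exact_mod_cast h1
  obtain ⟨y, hy⟩ : ∃ y : ℝ, y = (JJ c m i + i * δ) / m := ⟨_, rfl⟩
  have hid : |(i : ℝ) * δ| ≤ s := by
    rw [abs_mul, Nat.abs_cast, hs]
    apply mul_le_mul_of_nonneg_right _ (abs_nonneg _)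
    exact_mod_cast hi'.le
  have hz1 : j / 2 ≤ |(JJ c m i : ℝ) + i * δ| := by
    have h1 := abs_sub_abs_le_abs_sub (JJ c m i : ℝ) (-(i * δ))
    rw [sub_neg_eq_add, abs_neg, ← hj] at h1
    linarith
  have hz2 : |(JJ c m i : ℝ) + i * δ| ≤ j + 1 / 2 := by
    have h1 := abs_add_le (JJ c m i : ℝ) (i * δ)
    rw [← hj] at h1
    linarith
  have hmpos : (0 : ℝ) < m := by linarith
  have hy1 : j / 2 / m ≤ |y| := by
    rw [hy, abs_div, Nat.abs_cast]
    gcongr
  have hy2 : |y| ≤ 3 / 4 := by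
    rw [hy, abs_div, Nat.abs_cast, div_le_iff₀ hmpos]
    linarith
  have hsy : j / (3 * m) ≤ |Real.sin (Real.pi * y)| := by
    refine le_trans ?_ (sin_lower hy2)
    calc j / (3 * m) = 2 / 3 * (j / 2 / m) := by field_simp
      _ ≤ 2 / 3 * |y| := by gcongr
  have hsypos : 0 < |Real.sin (Real.pi * y)| := lt_of_lt_of_le (by positivity) hsy
  have hsy0 : Real.sin (Real.pi * y) ≠ 0 := abs_pos.1 hsypos
  obtain ⟨u, hu⟩ : ∃ u : ℝ, u = (JJ c m i : ℝ) / m := ⟨_, rfl⟩
  have hu1 : |u| = j / m := by rw [hu, abs_div, Nat.abs_cast, hj]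
  have hsu : j / (3 / 2 * m) ≤ |Real.sin (Real.pi * u)| := by
    refine le_trans (le_of_eq ?_) (sin_lower (y := u) (by
      rw [hu1, div_le_iff₀ hmpos]
      linarith))
    rw [hu1]
    field_simp
  have hsupos : 0 < |Real.sin (Real.pi * u)| := lt_of_lt_of_le (by positivity) hsu
  have hsu0 : Real.sin (Real.pi * u) ≠ 0 := abs_pos.1 hsupos
  have hδ : |δ| = s / m := by rw [hs]; field_simp
  have hsin : |Real.sin (Real.pi * δ)| ≤ Real.pi * (s / m) := by
    refine Real.abs_sin_le_abs.trans ?_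
    rw [abs_mul, abs_of_pos hpi, hδ]
  have hcos : |Real.cos (Real.pi * δ) - 1| ≤ (Real.pi * (s / m)) ^ 2 / 2 := by
    have h1 := Real.one_sub_sq_div_two_le_cos (x := Real.pi * δ)
    have h2 := Real.cos_le_one (Real.pi * δ)
    have h3 : (Real.pi * δ) ^ 2 = (Real.pi * (s / m)) ^ 2 := by
      rw [← hδ, mul_pow, mul_pow, sq_abs]
    rw [abs_of_nonpos (by linarith), ← h3]
    linarith
  have hw := wf_eq hm ht i (by rw [← hy]; exact hsy0)
  rw [← hy] at hw
  have hsm : s / m ≤ s / (2 * j) := by gcongr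
  have hpi2 : Real.pi ^ 2 ≤ 10 := by nlinarith
  have hq : (Real.pi * (s / m)) ^ 2 / 2 ≤ 5 / 4 * (s ^ 2 / j ^ 2) := by
    have h1 : (s / m) ^ 2 ≤ (s / (2 * j)) ^ 2 := by gcongr
    have h2 : (s / (2 * j)) ^ 2 = s ^ 2 / j ^ 2 / 4 := by field_simp; ring
    have h3 : 0 ≤ s ^ 2 / j ^ 2 := by positivity
    rw [mul_pow]
    calc Real.pi ^ 2 * (s / m) ^ 2 / 2 ≤ 10 * (s ^ 2 / j ^ 2 / 4) / 2 := by
          rw [← h2]
          gcongr
      _ = 5 / 4 * (s ^ 2 / j ^ 2) := by ring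
  have hss : s ^ 2 / j ^ 2 ≤ 1 / 2 * (s / j) := by
    rw [div_le_iff₀ (by positivity)]
    have h1 : 1 / 2 * (s / j) * j ^ 2 = 1 / 2 * (s * j) := by field_simp
    rw [h1]
    nlinarith
  have hss2 : s ^ 2 / j ^ 2 ≤ 1 / 2 * (s / j ^ 2) := by
    have h1 : 1 / 2 * (s / j ^ 2) = (1 / 2 * s) / j ^ 2 := by ring
    rw [h1]
    gcongr
    nlinarith
  refine ⟨by rw [← hj]; exact hj1, ?_, ?_⟩
  · rw [← hj, hw]
    have h1 : |Real.cos (Real.pi * y) / Real.sin (Real.pi * y)| ≤ 3 * m / j := by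
      rw [abs_div, div_le_iff₀ hsypos]
      have h2 := Real.abs_cos_le_one (Real.pi * y)
      calc |Real.cos (Real.pi * y)| ≤ 1 := h2
        _ = 3 * m / j * (j / (3 * m)) := by field_simp
        _ ≤ 3 * m / j * |Real.sin (Real.pi * y)| := by gcongr
    have h3 : |Real.sin (Real.pi * δ) * (Real.cos (Real.pi * y) / Real.sin (Real.pi * y))| ≤
        3 * Real.pi * (s / j) := by
      rw [abs_mul]
      calc |Real.sin (Real.pi * δ)| * |Real.cos (Real.pi * y) / Real.sin (Real.pi * y)| ≤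
          Real.pi * (s / m) * (3 * m / j) := by gcongr
        _ = 3 * Real.pi * (s / j) := by field_simp
    have h4 : Real.cos (Real.pi * δ) - Real.sin (Real.pi * δ) *
        (Real.cos (Real.pi * y) / Real.sin (Real.pi * y)) - 1 =
        (Real.cos (Real.pi * δ) - 1) - Real.sin (Real.pi * δ) *
        (Real.cos (Real.pi * y) / Real.sin (Real.pi * y)) := by ring
    rw [h4]
    refine (abs_sub _ _).trans ?_
    have h5 : 0 ≤ s / j := by positivity
    nlinarith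
  · rw [← hj, ← hu, hw]
    have h1 : Real.cos (Real.pi * u) / Real.sin (Real.pi * u) -
        Real.cos (Real.pi * y) / Real.sin (Real.pi * y) =
        Real.sin (Real.pi * y - Real.pi * u) / (Real.sin (Real.pi * u) * Real.sin (Real.pi * y)) := by
      rw [Real.sin_sub]
      field_simp
    have h2 : |Real.sin (Real.pi * y - Real.pi * u)| ≤ Real.pi * (s / m) := by
      refine Real.abs_sin_le_abs.trans ?_
      have h3 : Real.pi * y - Real.pi * u = Real.pi * (i * δ / m) := by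
        rw [hy, hu]
        ring
      rw [h3, abs_mul, abs_of_pos hpi, abs_div, Nat.abs_cast]
      gcongr
    have h3 : |Real.cos (Real.pi * u) / Real.sin (Real.pi * u) -
        Real.cos (Real.pi * y) / Real.sin (Real.pi * y)| ≤
        Real.pi * (s / m) * ((3 / 2 * m / j) * (3 * m / j)) := by
      rw [h1, abs_div, abs_mul]
      rw [div_le_iff₀ (by positivity)]
      have h4 : 1 ≤ (3 / 2 * m / j) * |Real.sin (Real.pi * u)| := by
        calc (1 : ℝ) = (3 / 2 * m / j) * (j / (3 / 2 * m)) := by field_simp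
          _ ≤ (3 / 2 * m / j) * |Real.sin (Real.pi * u)| := by gcongr
      have h5 : 1 ≤ (3 * m / j) * |Real.sin (Real.pi * y)| := by
        calc (1 : ℝ) = (3 * m / j) * (j / (3 * m)) := by field_simp
          _ ≤ (3 * m / j) * |Real.sin (Real.pi * y)| := by gcongr
      have h6 : 1 ≤ (3 / 2 * m / j) * |Real.sin (Real.pi * u)| *
          ((3 * m / j) * |Real.sin (Real.pi * y)|) := by nlinarith
      calc |Real.sin (Real.pi * y - Real.pi * u)| ≤ Real.pi * (s / m) := h2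
        _ = Real.pi * (s / m) * 1 := by ring
        _ ≤ Real.pi * (s / m) * ((3 / 2 * m / j) * |Real.sin (Real.pi * u)| *
          ((3 * m / j) * |Real.sin (Real.pi * y)|)) := by gcongr
        _ = _ := by ring
    have h4 : |Real.sin (Real.pi * δ) * (Real.cos (Real.pi * u) / Real.sin (Real.pi * u) -
        Real.cos (Real.pi * y) / Real.sin (Real.pi * y))| ≤ 9 / 2 * Real.pi ^ 2 * (s ^ 2 / j ^ 2) := by
      rw [abs_mul]
      calc |Real.sin (Real.pi * δ)| * |Real.cos (Real.pi * u) / Real.sin (Real.pi * u) -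
          Real.cos (Real.pi * y) / Real.sin (Real.pi * y)| ≤
          Real.pi * (s / m) * (Real.pi * (s / m) * ((3 / 2 * m / j) * (3 * m / j))) := by gcongr
        _ = 9 / 2 * Real.pi ^ 2 * (s ^ 2 / j ^ 2) := by field_simp; ring
    have h5 : Real.cos (Real.pi * δ) - Real.sin (Real.pi * δ) *
        (Real.cos (Real.pi * y) / Real.sin (Real.pi * y)) - 1 + Real.sin (Real.pi * δ) *
        (Real.cos (Real.pi * u) / Real.sin (Real.pi * u)) =
        (Real.cos (Real.pi * δ) - 1) + Real.sin (Real.pi * δ) *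
        (Real.cos (Real.pi * u) / Real.sin (Real.pi * u) -
          Real.cos (Real.pi * y) / Real.sin (Real.pi * y)) := by ring
    rw [h5]
    refine (abs_add_le _ _).trans ?_
    have h6 : 0 ≤ s / j ^ 2 := by positivity
    have h7 : 0 ≤ s ^ 2 / j ^ 2 := by positivity
    nlinarith

theorem natAbs_cast (m : ℕ) (c : ℤ) (i : ℕ) : (((JJ c m i).natAbs : ℕ) : ℝ) = |(JJ c m i : ℝ)| := by
  rw [Nat.cast_natAbs, Int.cast_abs]

theorem sum_sq_le (hm : 1 ≤ m) (cop : IsCoprime c (m : ℤ)) {Y l : ℕ} (hY : 1 ≤ Y) (hl : l ≤ m) :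
    ∑ i ∈ (Finset.Ico 1 l).filter (fun i : ℕ => (Y : ℤ) < |JJ c m i|),
      (|(JJ c m i : ℝ)| ^ 2)⁻¹ ≤ 2 * (Y : ℝ)⁻¹ := by
  have h1 := sum_le hm cop (fun n => ((n : ℝ) ^ 2)⁻¹) (fun n => by positivity)
    ((Finset.Ico 1 l).filter (fun i : ℕ => (Y : ℤ) < |JJ c m i|)) (Finset.Ioc Y (m + Y))
    (fun i hi => by
      rw [Finset.mem_filter, Finset.mem_Ico] at hi
      omega)
    (fun i hi => by
      rw [Finset.mem_filter, Finset.mem_Ico] at hi
      have h2 := JJ_abs hm c i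
      rw [Int.abs_eq_natAbs] at h2 hi
      rw [Finset.mem_Ioc]
      omega)
  simp only [natAbs_cast] at h1
  refine h1.trans ?_
  have h2 : ∑ n ∈ Finset.Ioc Y (m + Y), ((n : ℝ) ^ 2)⁻¹ ≤ (Y : ℝ)⁻¹ - ((m + Y : ℕ) : ℝ)⁻¹ :=
    sum_Ioc_inv_sq_le_sub (by omega) (by omega)
  have h3 : (0 : ℝ) ≤ ((m + Y : ℕ) : ℝ)⁻¹ := by positivity
  linarith

theorem log_near {a : ℝ} (ha : |a| ≤ 1 / 2) : |Real.log (1 + a) - a| ≤ 2 * a ^ 2 := by
  have h0 := abs_le.1 ha
  have h1 : 0 < 1 + a := by linarith [h0.1]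
  have h2 := Real.log_le_sub_one_of_pos h1
  have h3 := Real.one_sub_inv_le_log_of_pos h1
  have h4 : a - 2 * a ^ 2 ≤ 1 - (1 + a)⁻¹ := by
    have h5 : 1 - (1 + a)⁻¹ - (a - 2 * a ^ 2) = a ^ 2 * (1 + 2 * a) / (1 + a) := by
      field_simp
      ring
    have h6 : 0 ≤ a ^ 2 * (1 + 2 * a) / (1 + a) := by
      apply div_nonneg _ h1.le
      apply mul_nonneg (sq_nonneg _)
      linarith [h0.1]
    linarith
  rw [abs_le]
  constructor
  · linarith
  · have := sq_nonneg a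
    linarith

/-- the product of the factors with `|J| > Y` -/
noncomputable def tt (t δ : ℝ) (c : ℤ) (m Y l : ℕ) : ℝ :=
  ∏ i ∈ (Finset.Ico 1 l).filter (fun i : ℕ => (Y : ℤ) < |JJ c m i|), wf t δ i

theorem gg_eq (t δ : ℝ) (c : ℤ) (m Y l : ℕ) : gg t δ l = hh t δ c m Y l * tt t δ c m Y l := by
  unfold gg hh tt
  rw [← Finset.prod_filter_mul_prod_filter_not (Finset.Ico 1 l) (fun i : ℕ => |JJ c m i| ≤ (Y : ℤ))]
  simp only [not_le]

theorem tt_bound {C₀ : ℝ} (hC0 : 0 < C₀) {E C₁ t δ : ℝ} (hP : Par E C₁ m c δ t)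
    (hcot : ∀ Y l : ℕ, 1 ≤ Y → l ≤ m →
      |∑ i ∈ (Finset.Ico 1 l).filter (fun i : ℕ => (Y : ℤ) < |JJ c m i|),
        Real.cos (Real.pi * (JJ c m i / m)) / Real.sin (Real.pi * (JJ c m i / m))| ≤ C₀ * E * m / √Y)
    {Y l : ℕ} (hY : 16 ≤ Y) (hl : l ≤ m) :
    0 < tt t δ c m Y l ∧ |Real.log (tt t δ c m Y l)| ≤ (4 * C₀ * C₁ + 200) / √Y := by
  have hpi := Real.pi_pos
  have hpi3 := Real.pi_lt_d2
  obtain ⟨s, hs⟩ : ∃ s : ℝ, s = m * |δ| := ⟨_, rfl⟩
  have hs0 : 0 ≤ s := by rw [hs]; positivity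
  have hs2 : s ≤ 1 / 2 := by rw [hs]; exact hP.hδ
  have hEs : E * s ≤ C₁ := by rw [hs]; exact hP.hC
  have hmpos : (0 : ℝ) < m := by exact_mod_cast hP.hm
  have hY0 : (16 : ℝ) ≤ Y := by exact_mod_cast hY
  obtain ⟨S, hS⟩ : ∃ S : Finset ℕ, S = (Finset.Ico 1 l).filter (fun i : ℕ => (Y : ℤ) < |JJ c m i|) :=
    ⟨_, rfl⟩
  have hSm : ∀ i ∈ S, 1 ≤ i ∧ i < m ∧ (Y : ℝ) < |(JJ c m i : ℝ)| := by
    intro i hi
    rw [hS, Finset.mem_filter, Finset.mem_Ico] at hi
    refine ⟨hi.1.1, by omega, ?_⟩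
    exact_mod_cast hi.2
  have hb : ∀ i ∈ S, Bnd t δ s c m i := fun i hi =>
    bnd hP.hm hP.cop hP.ht hs hs2 (hSm i hi).1 (hSm i hi).2.1
  have hsmall : ∀ i ∈ S, |wf t δ i - 1| ≤ 1 / 2 := by
    intro i hi
    refine (hb i hi).w1.trans ?_
    have h1 := (hSm i hi).2.2
    have h2 : s / |(JJ c m i : ℝ)| ≤ (1 / 2) / 16 := by
      apply div_le_div₀ (by norm_num) hs2 (by norm_num)
      linarith
    linarith
  have hwpos : ∀ i ∈ S, 0 < wf t δ i := by
    intro i hi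
    have := (abs_le.1 (hsmall i hi)).1
    linarith
  have htt : tt t δ c m Y l = ∏ i ∈ S, wf t δ i := by rw [tt, hS]
  have hpos : 0 < tt t δ c m Y l := by
    rw [htt]
    exact Finset.prod_pos hwpos
  refine ⟨hpos, ?_⟩
  have hlog : Real.log (tt t δ c m Y l) = ∑ i ∈ S, Real.log (wf t δ i) := by
    rw [htt, Real.log_prod fun i hi => (hwpos i hi).ne']
  have hsq : ∑ i ∈ S, (|(JJ c m i : ℝ)| ^ 2)⁻¹ ≤ 2 * (Y : ℝ)⁻¹ := by
    rw [hS]
    exact sum_sq_le hP.hm hP.cop (by omega) hl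
  -- the logarithms
  have h1 : |∑ i ∈ S, Real.log (wf t δ i) - ∑ i ∈ S, (wf t δ i - 1)| ≤
      ∑ i ∈ S, 121 / 2 * (|(JJ c m i : ℝ)| ^ 2)⁻¹ := by
    rw [← Finset.sum_sub_distrib]
    refine (Finset.abs_sum_le_sum_abs _ _).trans (Finset.sum_le_sum fun i hi => ?_)
    have h2 := log_near (hsmall i hi)
    rw [add_sub_cancel] at h2
    refine h2.trans ?_
    have h3 := (hb i hi).w1
    have h4 : (wf t δ i - 1) ^ 2 ≤ (11 * (s / |(JJ c m i : ℝ)|)) ^ 2 := by
      rw [← sq_abs]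
      gcongr
    have h5 : (11 * (s / |(JJ c m i : ℝ)|)) ^ 2 = 121 * s ^ 2 * (|(JJ c m i : ℝ)| ^ 2)⁻¹ := by
      rw [mul_pow, div_pow]
      ring
    have h6 : s ^ 2 ≤ 1 / 4 := by nlinarith
    have h7 : 0 ≤ (|(JJ c m i : ℝ)| ^ 2)⁻¹ := by positivity
    calc 2 * (wf t δ i - 1) ^ 2 ≤ 2 * (121 * s ^ 2 * (|(JJ c m i : ℝ)| ^ 2)⁻¹) := by linarith
      _ ≤ 2 * (121 * (1 / 4) * (|(JJ c m i : ℝ)| ^ 2)⁻¹) := by gcongr
      _ = _ := by ring
  have h2 : |∑ i ∈ S, (wf t δ i - 1) + Real.sin (Real.pi * δ) *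
      ∑ i ∈ S, Real.cos (Real.pi * (JJ c m i / m)) / Real.sin (Real.pi * (JJ c m i / m))| ≤
      ∑ i ∈ S, 12 * (|(JJ c m i : ℝ)| ^ 2)⁻¹ := by
    rw [Finset.mul_sum, ← Finset.sum_add_distrib]
    refine (Finset.abs_sum_le_sum_abs _ _).trans (Finset.sum_le_sum fun i hi => ?_)
    refine (hb i hi).w2.trans ?_
    have h7 : 0 ≤ (|(JJ c m i : ℝ)| ^ 2)⁻¹ := by positivity
    rw [div_eq_mul_inv]
    nlinarith
  have h3 : |Real.sin (Real.pi * δ) *
      ∑ i ∈ S, Real.cos (Real.pi * (JJ c m i / m)) / Real.sin (Real.pi * (JJ c m i / m))| ≤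
      4 * C₀ * C₁ / √Y := by
    rw [abs_mul]
    have h4 := hcot Y l (by omega) hl
    rw [← hS] at h4
    have hδ : |δ| = s / m := by rw [hs]; field_simp
    have h5 : |Real.sin (Real.pi * δ)| ≤ Real.pi * (s / m) := by
      refine Real.abs_sin_le_abs.trans ?_
      rw [abs_mul, abs_of_pos hpi, hδ]
    have hsY : 0 < √(Y : ℝ) := Real.sqrt_pos.2 (by linarith)
    calc _ ≤ Real.pi * (s / m) * (C₀ * E * m / √Y) := by gcongr
      _ = Real.pi * C₀ * (E * s) / √Y := by field_simp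
      _ ≤ 4 * C₀ * C₁ / √Y := by
          apply div_le_div_of_nonneg_right _ hsY.le
          have hE0 : 0 ≤ E * s := mul_nonneg (by linarith [hP.hE]) hs0
          calc Real.pi * C₀ * (E * s) ≤ 4 * C₀ * (E * s) := by
                gcongr
                linarith
            _ ≤ 4 * C₀ * C₁ := by gcongr
  rw [← Finset.mul_sum] at h1 h2
  have hYs : (Y : ℝ)⁻¹ ≤ 1 / √Y := by
    rw [inv_eq_one_div]
    apply one_div_le_one_div_of_le (Real.sqrt_pos.2 (by linarith))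
    rw [Real.sqrt_le_left (by linarith)]
    nlinarith
  rw [hlog]
  have h4 : ∑ i ∈ S, Real.log (wf t δ i) =
      (∑ i ∈ S, Real.log (wf t δ i) - ∑ i ∈ S, (wf t δ i - 1)) +
      (∑ i ∈ S, (wf t δ i - 1) + Real.sin (Real.pi * δ) *
      ∑ i ∈ S, Real.cos (Real.pi * (JJ c m i / m)) / Real.sin (Real.pi * (JJ c m i / m))) -
      Real.sin (Real.pi * δ) *
      ∑ i ∈ S, Real.cos (Real.pi * (JJ c m i / m)) / Real.sin (Real.pi * (JJ c m i / m)) := by ring
  rw [h4]
  refine (abs_sub _ _).trans ?_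
  refine (add_le_add_left (abs_add_le _ _) _).trans ?_
  have h5 : (4 * C₀ * C₁ + 200) / √Y = 4 * C₀ * C₁ / √Y + 200 * (1 / √Y) := by ring
  rw [h5]
  have h6 : 0 ≤ 1 / √(Y : ℝ) := by positivity
  linarith

theorem exp_near {x K : ℝ} (h : |x| ≤ K) : |Real.exp x - 1| ≤ K * Real.exp K := by
  have hK : 0 ≤ K := (abs_nonneg x).trans h
  have h0 := abs_le.1 h
  have h1 := Real.add_one_le_exp x
  have h2 := Real.add_one_le_exp (-x)
  have h3 : Real.exp x - 1 ≤ K * Real.exp K := by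
    have h4 : Real.exp x * Real.exp (-x) = 1 := by rw [← Real.exp_add]; simp
    have h5 := Real.exp_pos x
    have h6 : Real.exp x - 1 ≤ x * Real.exp x := by nlinarith
    have h7 : x * Real.exp x ≤ K * Real.exp K := by
      rcases le_total 0 x with hx | hx
      · exact mul_le_mul h0.2 (Real.exp_le_exp.2 h0.2) h5.le hK
      · have : x * Real.exp x ≤ 0 := mul_nonpos_of_nonpos_of_nonneg hx h5.le
        have : 0 ≤ K * Real.exp K := by positivity
        linarith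
    linarith
  rw [abs_le]
  refine ⟨?_, h3⟩
  have h8 : K ≤ K * Real.exp K := by
    have := Real.one_le_exp hK
    nlinarith
  linarith

theorem g : StCot → StG := by
  rintro ⟨C₀, hC0, hcot⟩ C₁
  obtain ⟨K, hK⟩ : ∃ K : ℝ, K = 4 * C₀ * |C₁| + 200 := ⟨_, rfl⟩
  have hK0 : 0 < K := by rw [hK]; positivity
  obtain ⟨G, hG⟩ : ∃ G : ℝ, G = 7 ^ 32 * Real.exp (K / 4) := ⟨_, rfl⟩
  have hG7 : (7 : ℝ) ^ 32 ≤ G := by
    rw [hG]
    have : 1 ≤ Real.exp (K / 4) := Real.one_le_exp (by positivity)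
    nlinarith
  obtain ⟨H, hH⟩ : ∃ H : ℝ, H = G * Real.exp (K / 4) := ⟨_, rfl⟩
  have hG0 : 0 < G := lt_of_lt_of_le (by norm_num) hG7
  have hHG : G ≤ H := by
    rw [hH]
    have : 1 ≤ Real.exp (K / 4) := Real.one_le_exp (by positivity)
    nlinarith
  have hH0 : 0 < H := hG0.trans_le hHG
  refine ⟨H * (K * Real.exp (K / 4)) + 8 * H + 11 * H, by positivity, ?_⟩
  intro E m c δ t hP Y hY
  have hcot' := hcot E m c hP.hE hP.hm hP.cop hP.bad
  have hmpos : (0 : ℝ) < m := by exact_mod_cast hP.hm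
  obtain ⟨s, hs⟩ : ∃ s : ℝ, s = m * |δ| := ⟨_, rfl⟩
  have hs0 : 0 ≤ s := by rw [hs]; positivity
  have hs2 : s ≤ 1 / 2 := by rw [hs]; exact hP.hδ
  have hC1 : 0 ≤ C₁ := le_trans (by
    have := hP.hE
    positivity) hP.hC
  have hb : ∀ i : ℕ, 1 ≤ i → i < m → Bnd t δ s c m i := fun i h1 h2 =>
    bnd hP.hm hP.cop hP.ht hs hs2 h1 h2
  -- the small products
  have hsm : ∀ Y l : ℕ, Y ≤ 16 → l ≤ m → |hh t δ c m Y l| ≤ 7 ^ 32 := by
    intro Y l hY hl
    unfold hh
    rw [Finset.abs_prod]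
    obtain ⟨S, hS⟩ : ∃ S : Finset ℕ, S = (Finset.Ico 1 l).filter (fun i : ℕ => |JJ c m i| ≤ (Y : ℤ)) :=
      ⟨_, rfl⟩
    rw [← hS]
    have h1 : ∏ i ∈ S, |wf t δ i| ≤ ∏ _i ∈ S, (7 : ℝ) := by
      apply Finset.prod_le_prod (fun i _ => abs_nonneg _)
      intro i hi
      rw [hS, Finset.mem_filter, Finset.mem_Ico] at hi
      have h2 := hb i hi.1.1 (by omega)
      have h3 : s / |(JJ c m i : ℝ)| ≤ 1 / 2 := by
        rw [div_le_iff₀ (by linarith [h2.pos])]
        nlinarith [h2.pos]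
      have h4 : |wf t δ i| ≤ |wf t δ i - 1| + 1 := by
        have := abs_add_le (wf t δ i - 1) 1
        rw [sub_add_cancel, abs_one] at this
        exact this
      linarith [h2.w1]
    refine h1.trans ?_
    rw [Finset.prod_const]
    apply pow_le_pow_right₀ (by norm_num)
    have h2 := sum_le hP.hm hP.cop (fun _ => 1) (fun _ => zero_le_one) S (Finset.Icc 1 16)
      (fun i hi => by
        rw [hS, Finset.mem_filter, Finset.mem_Ico] at hi
        omega)
      (fun i hi => by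
        rw [hS, Finset.mem_filter, Finset.mem_Ico] at hi
        have h3 := JJ_ne hP.hm hP.cop hi.1.1 (by omega)
        rw [Int.abs_eq_natAbs] at hi
        rw [Finset.mem_Icc]
        omega)
    rw [Finset.sum_const, Finset.sum_const, nsmul_eq_mul, nsmul_eq_mul, Nat.card_Icc] at h2
    norm_num at h2
    exact_mod_cast h2
  have htb : ∀ Y l : ℕ, 16 ≤ Y → l ≤ m → 0 < tt t δ c m Y l ∧
      |Real.log (tt t δ c m Y l)| ≤ K / √Y ∧ |Real.log (tt t δ c m Y l)| ≤ K / 4 := by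
    intro Y l hY hl
    obtain ⟨h1, h2⟩ := tt_bound hC0 hP hcot' hY hl
    have h3 : (4 * C₀ * C₁ + 200) / √Y ≤ K / √Y := by
      rw [hK, abs_of_nonneg hC1]
    have h4 : (4 : ℝ) ≤ √Y := by
      rw [show (4 : ℝ) = √16 by
        rw [show (16 : ℝ) = 4 ^ 2 by norm_num, Real.sqrt_sq (by norm_num)]]
      apply Real.sqrt_le_sqrt
      exact_mod_cast hY
    refine ⟨h1, h2.trans h3, (h2.trans h3).trans ?_⟩
    gcongr
  have hexp : ∀ Y l : ℕ, 16 ≤ Y → l ≤ m → tt t δ c m Y l ≤ Real.exp (K / 4) ∧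
      (tt t δ c m Y l)⁻¹ ≤ Real.exp (K / 4) := by
    intro Y l hY hl
    obtain ⟨h1, _, h3⟩ := htb Y l hY hl
    have h4 := abs_le.1 h3
    constructor
    · rw [← Real.exp_log h1]
      exact Real.exp_le_exp.2 h4.2
    · rw [← Real.exp_log h1, ← Real.exp_neg]
      exact Real.exp_le_exp.2 (by linarith [h4.1])
  have hgg : ∀ l : ℕ, l ≤ m → |gg t δ l| ≤ G := by
    intro l hl
    rw [gg_eq t δ c m 16 l, abs_mul, hG, abs_of_pos (htb 16 l le_rfl hl).1]
    exact mul_le_mul (hsm 16 l le_rfl hl) (hexp 16 l le_rfl hl).1 (htb 16 l le_rfl hl).1.le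
      (by norm_num)
  have hhh : ∀ l : ℕ, l ≤ m → |hh t δ c m Y l| ≤ H := by
    intro l hl
    rcases le_total Y 16 with h16 | h16
    · exact (hsm Y l h16 hl).trans (hG7.trans hHG)
    · have h1 := gg_eq t δ c m Y l
      have h2 := (htb Y l h16 hl).1
      have h3 : hh t δ c m Y l = gg t δ l * (tt t δ c m Y l)⁻¹ := by
        rw [h1]
        field_simp
      rw [h3, abs_mul, hH, abs_of_pos (inv_pos.2 h2)]
      exact mul_le_mul (hgg l hl) (hexp Y l h16 hl).2 (inv_pos.2 h2).le hG0.le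
  have hCbig : ∀ z : ℝ, z ≤ H → z ≤ H * (K * Real.exp (K / 4)) + 8 * H + 11 * H := by
    intro z hz
    have : 0 ≤ H * (K * Real.exp (K / 4)) := by positivity
    linarith
  have hY1 : (1 : ℝ) ≤ Y := by exact_mod_cast hY
  have hsY : 0 < √(Y : ℝ) := Real.sqrt_pos.2 (by linarith)
  refine ⟨fun l hl => hCbig _ (hhh l hl), fun l hl => ?_, ?_⟩
  · rcases le_total Y 16 with h16 | h16
    · have h1 : |gg t δ l - hh t δ c m Y l| ≤ 2 * H := by
        refine (abs_sub _ _).trans ?_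
        linarith [hgg l hl, hhh l hl]
      refine h1.trans ?_
      rw [le_div_iff₀ hsY]
      have h2 : √(Y : ℝ) ≤ 4 := by
        rw [show (4 : ℝ) = √16 by
          rw [show (16 : ℝ) = 4 ^ 2 by norm_num, Real.sqrt_sq (by norm_num)]]
        apply Real.sqrt_le_sqrt
        exact_mod_cast h16
      have h3 : 0 ≤ H * (K * Real.exp (K / 4)) := by positivity
      nlinarith
    · obtain ⟨h1, h2, h3⟩ := htb Y l h16 hl
      have h4 : gg t δ l - hh t δ c m Y l = hh t δ c m Y l * (tt t δ c m Y l - 1) := by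
        rw [gg_eq t δ c m Y l]
        ring
      rw [h4, abs_mul]
      have h5 : |tt t δ c m Y l - 1| ≤ K / √Y * Real.exp (K / 4) := by
        rw [← Real.exp_log h1]
        refine (exp_near h2).trans ?_
        have h6 : K / √Y ≤ K / 4 := by
          have h7 : (4 : ℝ) ≤ √Y := by
            rw [show (4 : ℝ) = √16 by
              rw [show (16 : ℝ) = 4 ^ 2 by norm_num, Real.sqrt_sq (by norm_num)]]
            apply Real.sqrt_le_sqrt
            exact_mod_cast h16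
          gcongr
        gcongr
      calc |hh t δ c m Y l| * |tt t δ c m Y l - 1| ≤ H * (K / √Y * Real.exp (K / 4)) := by
            exact mul_le_mul (hhh l hl) h5 (abs_nonneg _) hH0.le
        _ = H * (K * Real.exp (K / 4)) / √Y := by ring
        _ ≤ (H * (K * Real.exp (K / 4)) + 8 * H + 11 * H) / √Y := by
            apply div_le_div_of_nonneg_right _ hsY.le
            linarith
  · -- the variation
    have h1 : ∀ i ∈ Finset.Ico 1 m, |hh t δ c m Y (i + 1) - hh t δ c m Y i| ≤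
        if |JJ c m i| ≤ (Y : ℤ) then H * (11 / 2) * ((JJ c m i).natAbs : ℝ)⁻¹ else 0 := by
      intro i hi
      rw [Finset.mem_Ico] at hi
      have h2 : Finset.Ico 1 (i + 1) = insert i (Finset.Ico 1 i) := by
        ext a
        rw [Finset.mem_insert, Finset.mem_Ico, Finset.mem_Ico]
        omega
      have h3 : i ∉ (Finset.Ico 1 i).filter (fun i : ℕ => |JJ c m i| ≤ (Y : ℤ)) := by
        rw [Finset.mem_filter, Finset.mem_Ico]
        omega
      split_ifs with h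
      · have h4 : hh t δ c m Y (i + 1) = wf t δ i * hh t δ c m Y i := by
          unfold hh
          rw [h2, Finset.filter_insert, if_pos h, Finset.prod_insert h3]
        have h5 : hh t δ c m Y (i + 1) - hh t δ c m Y i = hh t δ c m Y i * (wf t δ i - 1) := by
          rw [h4]
          ring
        have h6 := hb i hi.1 hi.2
        rw [h5, abs_mul, natAbs_cast]
        have h7 : |wf t δ i - 1| ≤ 11 / 2 * |(JJ c m i : ℝ)|⁻¹ := by
          refine h6.w1.trans ?_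
          have h8 : 0 ≤ |(JJ c m i : ℝ)|⁻¹ := by positivity
          rw [div_eq_mul_inv]
          nlinarith
        calc |hh t δ c m Y i| * |wf t δ i - 1| ≤ H * (11 / 2 * |(JJ c m i : ℝ)|⁻¹) :=
              mul_le_mul (hhh i hi.2.le) h7 (abs_nonneg _) hH0.le
          _ = _ := by ring
      · have h4 : hh t δ c m Y (i + 1) = hh t δ c m Y i := by
          unfold hh
          rw [h2, Finset.filter_insert, if_neg h]
        rw [h4, sub_self, abs_zero]
    refine (Finset.sum_le_sum h1).trans ?_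
    rw [← Finset.sum_filter, ← Finset.mul_sum]
    have h2 := sum_le hP.hm hP.cop (fun n => (n : ℝ)⁻¹) (fun n => by positivity)
      ((Finset.Ico 1 m).filter (fun i : ℕ => |JJ c m i| ≤ (Y : ℤ))) (Finset.Icc 1 Y)
      (fun i hi => by
        rw [Finset.mem_filter, Finset.mem_Ico] at hi
        omega)
      (fun i hi => by
        rw [Finset.mem_filter, Finset.mem_Ico] at hi
        have h3 := JJ_ne hP.hm hP.cop hi.1.1 (by omega)
        rw [Int.abs_eq_natAbs] at hi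
        rw [Finset.mem_Icc]
        omega)
    have h3 : ∑ n ∈ Finset.Icc 1 Y, (n : ℝ)⁻¹ ≤ 1 + Real.log Y := by
      have h4 := harmonic_le_one_add_log Y
      rw [harmonic_eq_sum_Icc] at h4
      push_cast at h4
      exact h4
    have h4 : 0 ≤ Real.log Y := Real.log_nonneg hY1
    have h5 : 0 ≤ H * (K * Real.exp (K / 4)) := by positivity
    calc H * (11 / 2) * ∑ i ∈ (Finset.Ico 1 m).filter (fun i : ℕ => |JJ c m i| ≤ (Y : ℤ)),
          ((JJ c m i).natAbs : ℝ)⁻¹ ≤ H * (11 / 2) * (2 * (1 + Real.log Y)) := by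
          gcongr
          exact h2.trans (by linarith)
      _ = 11 * H * (1 + Real.log Y) := by ring
      _ ≤ (H * (K * Real.exp (K / 4)) + 8 * H + 11 * H) * (1 + Real.log Y) := by
          gcongr
          linarith

end Pool.Agent.Y563.RR
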